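import Pool.Agent.N988.EA.Stm2

/-!
# Project EA (helper988), leaf EX: existence of Gibbs states by compactness (helper51)

`push` is the marginal on `H n` of a distribution on `H (n + 1)`; it preserves the property of the
Gibbs distributions (`Dlr`). `D n f m` is the marginal on `H m` of a distribution `f` on `H n`. The
Gibbs states are limits along an ultrafilter of the marginals of Gibbs distributions.
-/

set_option autoImplicit false

open MeasureTheory Set Filter
open scoped ENNReal Topology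

namespace Pool.Agent.N51.EA

open Pool.Agent.N988.EA

noncomputable section

variable {b : ℕ}

/-! ### The energy -/

/-- the energy of a configuration on all vertices -/
def ha {n : ℕ} (J : Edge b n → ℝ) (s : Pt b n → Bool) : ℝ :=
  ∑ e, J e * sg (s (bd n e false)) * sg (s (bd n e true))

theorem act_eq {n : ℕ} (J : Edge b n → ℝ) (τ : Bool → Bool) (σ : Vert b n → Bool) :
    act J τ σ = ha J (Sum.elim τ σ) := rfl

theorem ha_succ {n : ℕ} (J : Edge b (n + 1) → ℝ) (s : Pt b (n + 1) → Bool) :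
    ha J s = ∑ q : Fin b × Bool, ha (fun e => J (q.1, q.2, e)) (s ∘ emb q.1 q.2) := by
  have h1 : ha J s = ∑ e : Fin b × Bool × Edge b n, J e *
      sg (s (emb e.1 e.2.1 (bd n e.2.2 false))) *
      sg (s (emb e.1 e.2.1 (bd n e.2.2 true))) :=
    Fintype.sum_equiv (Equiv.refl _) _ _ fun e => rfl
  rw [h1, Fintype.sum_prod_type, Fintype.sum_prod_type]
  refine Finset.sum_congr rfl fun i _ => ?_
  rw [Fintype.sum_prod_type]
  rfl

theorem Z_pos {n : ℕ} (J : Edge b n → ℝ) (τ : Bool → Bool) : 0 < Z J τ :=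
  Finset.sum_pos (fun _ _ => Real.exp_pos _) Finset.univ_nonempty

variable (p : ℕ → Fin b × Bool) (J : EdgeInf b p → ℝ)

theorem cpl_succ (n : ℕ) : (fun e => cpl p J (n + 1) ((p n).1, (p n).2, e)) = cpl p J n := by
  funext e
  show (if h : ((p n).1, (p n).2) = p n then cpl p J n e else _) = cpl p J n e
  rw [dif_pos rfl]

/-! ### Marginals -/

/-- the marginal on `H n` of a distribution on `H (n+1)` -/
def push (n : ℕ) (f : (Pt b (n + 1) → Bool) → ℝ) : (Pt b n → Bool) → ℝ :=
  fun s => ∑ s' : Pt b (n + 1) → Bool, if s' ∘ emb (p n).1 (p n).2 = s then f s' else 0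

theorem push_sum (n : ℕ) (f : (Pt b (n + 1) → Bool) → ℝ) (φ : (Pt b n → Bool) → ℝ) :
    ∑ s, φ s * push p n f s = ∑ s', φ (s' ∘ emb (p n).1 (p n).2) * f s' := by
  unfold push
  simp only [Finset.mul_sum]
  rw [Finset.sum_comm]
  refine Finset.sum_congr rfl fun s' _ => ?_
  simp only [mul_ite, mul_zero]
  rw [Finset.sum_ite_eq]
  simp

theorem push_total (n : ℕ) (f : (Pt b (n + 1) → Bool) → ℝ) :
    ∑ s, push p n f s = ∑ s', f s' := by
  have h := push_sum p n f (fun _ => 1)
  simpa using h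

theorem push_nonneg (n : ℕ) (f : (Pt b (n + 1) → Bool) → ℝ) (hf : ∀ s, 0 ≤ f s) (s : Pt b n → Bool) :
    0 ≤ push p n f s := by
  unfold push
  refine Finset.sum_nonneg fun s' _ => ?_
  split_ifs
  · exact hf s'
  · exact le_rfl

/-- the spins inside `H n` have, given the spins of the ends, the Gibbs distribution -/
def Dlr (n : ℕ) (f : (Pt b n → Bool) → ℝ) : Prop :=
  ∀ τ (σ : Vert b n → Bool), f (Sum.elim τ σ) =
    (∑ σ' : Vert b n → Bool, f (Sum.elim τ σ')) * (Real.exp (act (cpl p J n) τ σ) /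
      Z (cpl p J n) τ)

/-- change of the spins inside `H n` -/
def upd (n : ℕ) (σ : Vert b n → Bool) (s' : Pt b (n + 1) → Bool) : Pt b (n + 1) → Bool :=
  fun v => match v with
    | .inl c => s' (.inl c)
    | .inr (.inl j) => s' (.inr (.inl j))
    | .inr (.inr r) => if (r.1, r.2.1) = p n then σ r.2.2 else s' (.inr (.inr r))

theorem upd_inl (n : ℕ) (σ : Vert b n → Bool) (s' : Pt b (n + 1) → Bool) :
    (upd p n σ s') ∘ Sum.inl = s' ∘ Sum.inl := rfl

theorem upd_emb (n : ℕ) (σ : Vert b n → Bool) (s' : Pt b (n + 1) → Bool) (q : Fin b × Bool)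
    (hq : q ≠ p n) : (upd p n σ s') ∘ emb q.1 q.2 = s' ∘ emb q.1 q.2 := by
  funext v
  rcases v with c | x
  · by_cases hc : c = q.2
    · simp [Function.comp, emb, hc, upd]
    · simp [Function.comp, emb, hc, upd]
  · have h : (q.1, q.2) ≠ p n := hq
    simp [Function.comp, emb, upd, h]

theorem upd_emb' (n : ℕ) (σ : Vert b n → Bool) (s' : Pt b (n + 1) → Bool) :
    (upd p n σ s') ∘ emb (p n).1 (p n).2 = Sum.elim ((s' ∘ emb (p n).1 (p n).2) ∘ Sum.inl) σ := by
  funext v
  rcases v with c | x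
  · by_cases hc : c = (p n).2
    · simp [Function.comp, emb, hc, upd]
    · simp [Function.comp, emb, hc, upd]
  · simp [Function.comp, emb, upd]

theorem upd_upd (n : ℕ) (σ σ' : Vert b n → Bool) (s' : Pt b (n + 1) → Bool) :
    upd p n σ (upd p n σ' s') = upd p n σ s' := by
  funext v
  rcases v with c | v
  · rfl
  · change Fin b ⊕ (Fin b × Bool × Vert b n) at v
    rcases v with j | r
    · rfl
    · by_cases hr : (r.1, r.2.1) = p n
      · simp [upd, hr]
      · simp [upd, hr]

theorem upd_self (n : ℕ) (τ : Bool → Bool) (σ : Vert b n → Bool) (s' : Pt b (n + 1) → Bool)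
    (h : s' ∘ emb (p n).1 (p n).2 = Sum.elim τ σ) : upd p n σ s' = s' := by
  funext v
  rcases v with c | v
  · rfl
  · change Fin b ⊕ (Fin b × Bool × Vert b n) at v
    rcases v with j | r
    · rfl
    · by_cases hr : (r.1, r.2.1) = p n
      · have h1 := congrFun h (Sum.inr r.2.2)
        have h2 : s' (emb (p n).1 (p n).2 (Sum.inr r.2.2)) = σ r.2.2 := h1
        have h3 : (emb (p n).1 (p n).2 (Sum.inr r.2.2) : Pt b (n + 1)) = .inr (.inr r) := by
          rw [← hr]
          rfl
        rw [h3] at h2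
        simp [upd, hr, h2]
      · simp [upd, hr]

/-- the marginals have the DLR property -/
theorem push_dlr (n : ℕ) (f : (Pt b (n + 1) → Bool) → ℝ) (hf : Dlr p J (n + 1) f) :
    Dlr p J n (push p n f) := by
  classical
  set K := cpl p J (n + 1) with hK
  set rest : (Pt b (n + 1) → Bool) → ℝ := fun s' => ∑ q ∈ Finset.univ.erase (p n),
    ha (fun e => K (q.1, q.2, e)) (s' ∘ emb q.1 q.2) with hrest
  set w : (Pt b (n + 1) → Bool) → ℝ := fun s' =>
    (∑ σ' : Vert b (n + 1) → Bool, f (Sum.elim (s' ∘ Sum.inl) σ')) / Z K (s' ∘ Sum.inl) *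
      Real.exp (rest s') with hw
  have h1 : ∀ s', f s' = w s' * Real.exp (ha (cpl p J n) (s' ∘ emb (p n).1 (p n).2)) := by
    intro s'
    have e1 : s' = Sum.elim (s' ∘ Sum.inl) (s' ∘ Sum.inr) := (Sum.elim_comp_inl_inr s').symm
    have e2 : ha K s' = ha (cpl p J n) (s' ∘ emb (p n).1 (p n).2) + rest s' := by
      rw [ha_succ, ← Finset.add_sum_erase _ _ (Finset.mem_univ (p n)), cpl_succ]
    have e3 := hf (s' ∘ Sum.inl) (s' ∘ Sum.inr)
    rw [act_eq, ← e1, ← hK, e2, Real.exp_add] at e3
    rw [e3, hw]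
    ring
  set c : (Pt b n → Bool) → ℝ := fun s => ∑ s' : Pt b (n + 1) → Bool,
    if s' ∘ emb (p n).1 (p n).2 = s then w s' else 0 with hc
  have h2 : ∀ s, push p n f s = c s * Real.exp (ha (cpl p J n) s) := by
    intro s
    unfold push
    rw [hc]
    simp only
    rw [Finset.sum_mul]
    refine Finset.sum_congr rfl fun s' _ => ?_
    split_ifs with h
    · rw [h1 s', h]
    · rw [zero_mul]
  have hwu : ∀ (σ : Vert b n → Bool) s', w (upd p n σ s') = w s' := by
    intro σ s'
    have e1 : rest (upd p n σ s') = rest s' := by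
      rw [hrest]
      simp only
      refine Finset.sum_congr rfl fun q hq => ?_
      rw [upd_emb p n σ s' q (Finset.ne_of_mem_erase hq)]
    rw [hw]
    simp only
    rw [e1, upd_inl]
  have h3 : ∀ (τ : Bool → Bool) (σ σ₂ : Vert b n → Bool), c (Sum.elim τ σ) = c (Sum.elim τ σ₂) := by
    intro τ σ σ₂
    rw [hc]
    simp only
    rw [← Finset.sum_filter, ← Finset.sum_filter]
    refine Finset.sum_bij' (fun s' _ => upd p n σ₂ s') (fun s' _ => upd p n σ s') ?_ ?_ ?_ ?_ ?_
    · intro s' hs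
      rw [Finset.mem_filter] at hs ⊢
      refine ⟨Finset.mem_univ _, ?_⟩
      rw [upd_emb', hs.2, Sum.elim_comp_inl]
    · intro s' hs
      rw [Finset.mem_filter] at hs ⊢
      refine ⟨Finset.mem_univ _, ?_⟩
      rw [upd_emb', hs.2, Sum.elim_comp_inl]
    · intro s' hs
      rw [Finset.mem_filter] at hs
      rw [upd_upd, upd_self p n τ σ s' hs.2]
    · intro s' hs
      rw [Finset.mem_filter] at hs
      rw [upd_upd, upd_self p n τ σ₂ s' hs.2]
    · intro s' _
      rw [hwu]
  intro τ σ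
  have hZ := Z_pos (cpl p J n) τ
  have h4 : ∑ σ' : Vert b n → Bool, push p n f (Sum.elim τ σ') =
      c (Sum.elim τ σ) * Z (cpl p J n) τ := by
    unfold Z
    rw [Finset.mul_sum]
    refine Finset.sum_congr rfl fun σ' _ => ?_
    rw [h2, h3 τ σ' σ, act_eq]
  rw [h4, h2, act_eq]
  field_simp

/-! ### The marginals of a distribution on `H n` -/

/-- the marginal on `H m` of a distribution on `H n` -/
def D : (n : ℕ) → ((Pt b n → Bool) → ℝ) → (m : ℕ) → (Pt b m → Bool) → ℝ
  | 0, f, m => if h : m = 0 then cast (by rw [h]) f else 0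
  | n + 1, f, m => if h : m = n + 1 then cast (by rw [h]) f else D n (push p n f) m

theorem D_self (n : ℕ) (f : (Pt b n → Bool) → ℝ) : D p n f n = f := by
  cases n with
  | zero => simp [D]
  | succ n => simp [D]

theorem D_succ (n : ℕ) (f : (Pt b (n + 1) → Bool) → ℝ) (m : ℕ) (hm : m ≤ n) :
    D p (n + 1) f m = D p n (push p n f) m := by
  rw [D, dif_neg (by omega)]

theorem D_push (n : ℕ) : ∀ (f : (Pt b n → Bool) → ℝ) (m : ℕ), m < n →
    D p n f m = push p m (D p n f (m + 1)) := by
  induction n with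
  | zero => intro f m hm; omega
  | succ n ih =>
    intro f m hm
    rcases Nat.lt_or_ge m n with h | h
    · rw [D_succ p n f m h.le, D_succ p n f (m + 1) h]
      exact ih _ m h
    · obtain rfl : m = n := by omega
      rw [D_succ p m f m le_rfl, D_self, D_self]

theorem D_nonneg (n : ℕ) : ∀ (f : (Pt b n → Bool) → ℝ), (∀ s, 0 ≤ f s) → ∀ (m : ℕ), m ≤ n →
    ∀ s, 0 ≤ D p n f m s := by
  induction n with
  | zero =>
    intro f hf m hm s
    obtain rfl : m = 0 := by omega
    rw [D_self]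
    exact hf s
  | succ n ih =>
    intro f hf m hm s
    rcases Nat.lt_or_ge m (n + 1) with h | h
    · rw [D_succ p n f m (by omega)]
      exact ih _ (push_nonneg p n f hf) m (by omega) s
    · obtain rfl : m = n + 1 := by omega
      rw [D_self]
      exact hf s

theorem D_total (n : ℕ) : ∀ (f : (Pt b n → Bool) → ℝ), ∀ (m : ℕ), m ≤ n →
    ∑ s, D p n f m s = ∑ s, f s := by
  induction n with
  | zero =>
    intro f m hm
    obtain rfl : m = 0 := by omega
    rw [D_self]
  | succ n ih =>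
    intro f m hm
    rcases Nat.lt_or_ge m (n + 1) with h | h
    · rw [D_succ p n f m (by omega), ih _ m (by omega), push_total]
    · obtain rfl : m = n + 1 := by omega
      rw [D_self]

theorem D_dlr (n : ℕ) : ∀ (f : (Pt b n → Bool) → ℝ), Dlr p J n f → ∀ (m : ℕ), m ≤ n →
    Dlr p J m (D p n f m) := by
  induction n with
  | zero =>
    intro f hf m hm
    obtain rfl : m = 0 := by omega
    rw [D_self]
    exact hf
  | succ n ih =>
    intro f hf m hm
    rcases Nat.lt_or_ge m (n + 1) with h | h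
    · rw [D_succ p n f m (by omega)]
      exact ih _ (push_dlr p J n f hf) m (by omega)
    · obtain rfl : m = n + 1 := by omega
      rw [D_self]
      exact hf

theorem D_embn (m : ℕ) (x : Vert b m) (k : ℕ) : ∀ f : (Pt b (m + k) → Bool) → ℝ,
    ∑ s : Pt b m → Bool, sg (s (.inr x)) * D p (m + k) f m s =
      ∑ s' : Pt b (m + k) → Bool, sg (s' (.inr (embn p m x k))) * f s' := by
  induction k with
  | zero =>
    intro f
    rw [show D p (m + 0) f m = f from D_self p m f]
    rfl
  | succ k ih =>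
    intro f
    rw [show D p (m + (k + 1)) f m = D p (m + k) (push p (m + k) f) m from
      D_succ p (m + k) f m (by omega), ih]
    exact push_sum p (m + k) f (fun s => sg (s (.inr (embn p m x k))))

/-! ### The Gibbs distributions of `H n` -/

/-- the Gibbs distribution of `H n` with the boundary condition `t` -/
def gb (n : ℕ) (t : Bool → Bool) : (Pt b n → Bool) → ℝ := fun s =>
  if s ∘ Sum.inl = t then Real.exp (ha (cpl p J n) s) / Z (cpl p J n) t else 0

theorem gb_elim (n : ℕ) (t τ : Bool → Bool) (σ : Vert b n → Bool) :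
    gb p J n t (Sum.elim τ σ) =
      if τ = t then Real.exp (act (cpl p J n) τ σ) / Z (cpl p J n) t else 0 := by
  unfold gb
  rw [Sum.elim_comp_inl, act_eq]

theorem gb_nonneg (n : ℕ) (t : Bool → Bool) (s : Pt b n → Bool) : 0 ≤ gb p J n t s := by
  unfold gb
  split_ifs
  · exact div_nonneg (Real.exp_pos _).le (Z_pos _ _).le
  · exact le_rfl

theorem gb_sum (n : ℕ) (t : Bool → Bool) (φ : (Pt b n → Bool) → ℝ) :
    ∑ s, φ s * gb p J n t s = (∑ σ : Vert b n → Bool, φ (Sum.elim t σ) *
      Real.exp (act (cpl p J n) t σ)) / Z (cpl p J n) t := by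
  rw [← (Equiv.sumArrowEquivProdArrow Bool (Vert b n) Bool).symm.sum_comp,
    Fintype.sum_prod_type, Finset.sum_eq_single t, Finset.sum_div]
  · refine Finset.sum_congr rfl fun σ _ => ?_
    rw [show ((Equiv.sumArrowEquivProdArrow Bool (Vert b n) Bool).symm (t, σ)) = Sum.elim t σ from
      rfl, gb_elim, if_pos rfl, mul_div_assoc]
  · intro τ _ hτ
    refine Finset.sum_eq_zero fun σ _ => ?_
    rw [show ((Equiv.sumArrowEquivProdArrow Bool (Vert b n) Bool).symm (τ, σ)) = Sum.elim τ σ from
      rfl, gb_elim, if_neg hτ, mul_zero]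
  · intro h
    exact absurd (Finset.mem_univ t) h

theorem gb_total (n : ℕ) (t : Bool → Bool) : ∑ s, gb p J n t s = 1 := by
  have h := gb_sum p J n t (fun _ => 1)
  simp only [one_mul] at h
  rw [h]
  exact div_self (Z_pos _ _).ne'

theorem gb_mag (n : ℕ) (t : Bool → Bool) (y : Vert b n) :
    ∑ s, sg (s (.inr y)) * gb p J n t s = mag (cpl p J n) t y :=
  gb_sum p J n t (fun s => sg (s (.inr y)))

theorem gb_dlr (n : ℕ) (t : Bool → Bool) : Dlr p J n (gb p J n t) := by
  intro τ σ
  have hZ := Z_pos (cpl p J n) t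
  by_cases h : τ = t
  · subst h
    have h1 : ∑ σ' : Vert b n → Bool, gb p J n τ (Sum.elim τ σ') = 1 := by
      simp only [gb_elim, if_true]
      rw [← Finset.sum_div]
      exact div_self hZ.ne'
    rw [h1, gb_elim, if_pos rfl, one_mul]
  · have h1 : ∑ σ' : Vert b n → Bool, gb p J n t (Sum.elim τ σ') = 0 := by
      refine Finset.sum_eq_zero fun σ' _ => ?_
      rw [gb_elim, if_neg h]
    rw [h1, gb_elim, if_neg h, zero_mul]

/-! ### Limits -/

/-- limits of the marginals of the Gibbs distributions -/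
theorem exists_lim (t : ℕ → Bool → Bool) : ∃ γ, IsGibbs p J γ ∧ ∀ m s,
    Tendsto (fun N => D p N (gb p J N (t N)) m s) (hyperfilter ℕ : Filter ℕ) (𝓝 (γ m s)) := by
  have hev : ∀ m : ℕ, ∀ᶠ N in (hyperfilter ℕ : Filter ℕ), m ≤ N := fun m =>
    Nat.hyperfilter_le_atTop (eventually_ge_atTop m)
  have h01 : ∀ m N, m ≤ N → ∀ s, D p N (gb p J N (t N)) m s ∈ Icc (0 : ℝ) 1 := by
    intro m N hmN s
    have h0 := D_nonneg p N (gb p J N (t N)) (gb_nonneg p J N (t N)) m hmN
    refine ⟨h0 s, ?_⟩
    have h1 := D_total p N (gb p J N (t N)) m hmN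
    rw [gb_total] at h1
    rw [← h1]
    exact Finset.single_le_sum (fun s _ => h0 s) (Finset.mem_univ s)
  have hlim : ∀ m s, ∃ x : ℝ,
      Tendsto (fun N => D p N (gb p J N (t N)) m s) (hyperfilter ℕ : Filter ℕ) (𝓝 x) := by
    intro m s
    have h := isCompact_Icc.ultrafilter_le_nhds
      ((hyperfilter ℕ).map fun N => D p N (gb p J N (t N)) m s) (s := Icc (0 : ℝ) 1) (by
        rw [le_principal_iff]
        exact (hev m).mono fun N hN => h01 m N hN s)
    obtain ⟨x, -, hx⟩ := h
    exact ⟨x, hx⟩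
  choose γ hγ using hlim
  refine ⟨γ, ⟨?_, ?_, ?_, ?_⟩, hγ⟩
  · intro m s
    exact ge_of_tendsto (hγ m s) ((hev m).mono fun N hN => (h01 m N hN s).1)
  · intro m
    have h1 : Tendsto (fun N => ∑ s, D p N (gb p J N (t N)) m s) (hyperfilter ℕ : Filter ℕ)
        (𝓝 (∑ s, γ m s)) := tendsto_finsetSum _ fun s _ => hγ m s
    have h2 : Tendsto (fun N => ∑ s, D p N (gb p J N (t N)) m s) (hyperfilter ℕ : Filter ℕ)
        (𝓝 1) := by
      refine tendsto_const_nhds.congr' ((hev m).mono fun N hN => ?_)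
      exact ((D_total p N _ m hN).trans (gb_total p J N (t N))).symm
    exact tendsto_nhds_unique h1 h2
  · intro m s
    have h1 : Tendsto (fun N => ∑ s' : Pt b (m + 1) → Bool, if s' ∘ emb (p m).1 (p m).2 = s then
        D p N (gb p J N (t N)) (m + 1) s' else 0) (hyperfilter ℕ : Filter ℕ)
        (𝓝 (∑ s' : Pt b (m + 1) → Bool, if s' ∘ emb (p m).1 (p m).2 = s then
          γ (m + 1) s' else 0)) := by
      refine tendsto_finsetSum _ fun s' _ => ?_
      split_ifs
      · exact hγ (m + 1) s'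
      · exact tendsto_const_nhds
    refine tendsto_nhds_unique (hγ m s) (h1.congr' ((hev (m + 1)).mono fun N hN => ?_))
    exact (congrFun (D_push p N (gb p J N (t N)) m (by omega)) s).symm
  · intro m τ σ
    have h1 : Tendsto (fun N => (∑ σ' : Vert b m → Bool,
        D p N (gb p J N (t N)) m (Sum.elim τ σ')) * (Real.exp (act (cpl p J m) τ σ) /
          Z (cpl p J m) τ)) (hyperfilter ℕ : Filter ℕ)
        (𝓝 ((∑ σ' : Vert b m → Bool, γ m (Sum.elim τ σ')) * (Real.exp (act (cpl p J m) τ σ) /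
          Z (cpl p J m) τ))) :=
      (tendsto_finsetSum _ fun σ' _ => hγ m (Sum.elim τ σ')).mul_const _
    refine tendsto_nhds_unique (hγ m _) (h1.congr' ((hev m).mono fun N hN => ?_))
    exact (D_dlr p J N _ (gb_dlr p J N (t N)) m hN τ σ).symm

theorem t_EX0 : S_EX0 := fun b p J => by
  obtain ⟨γ, h, -⟩ := exists_lim p J (fun _ _ => true)
  exact ⟨γ, h⟩

/-! ### Global spin flip -/

theorem sg_not (s : Bool) : sg (!s) = -sg s := by
  cases s <;> simp [sg]

theorem ha_flip {n : ℕ} (K : Edge b n → ℝ) (s : Pt b n → Bool) :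
    ha K (fun v => !s v) = ha K s := by
  unfold ha
  refine Finset.sum_congr rfl fun e _ => ?_
  rw [sg_not, sg_not]
  ring

theorem act_flip {n : ℕ} (K : Edge b n → ℝ) (τ : Bool → Bool) (σ : Vert b n → Bool) :
    act K (fun c => !τ c) (fun v => !σ v) = act K τ σ := by
  rw [act_eq, act_eq, ← ha_flip]
  congr 1
  funext v
  rcases v with c | x <;> simp

/-- the flip of the interior spins -/
def fl (b n : ℕ) : (Vert b n → Bool) ≃ (Vert b n → Bool) where
  toFun σ := fun v => !σ v
  invFun σ := fun v => !σ v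
  left_inv σ := by funext v; simp
  right_inv σ := by funext v; simp

theorem mag_flip {n : ℕ} (K : Edge b n → ℝ) (τ : Bool → Bool) (x : Vert b n) :
    mag K (fun c => !τ c) x = -mag K τ x := by
  have h1 : Z K (fun c => !τ c) = Z K τ := by
    unfold Z
    rw [← (fl b n).sum_comp]
    exact Finset.sum_congr rfl fun σ _ => by
      rw [show fl b n σ = fun v => !σ v from rfl, act_flip]
  unfold mag
  rw [h1, ← neg_div, ← (fl b n).sum_comp, ← Finset.sum_neg_distrib]
  congr 1
  refine Finset.sum_congr rfl fun σ _ => ?_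
  rw [show fl b n σ = fun v => !σ v from rfl, act_flip, sg_not]
  ring

theorem t_EX : S_EX := fun b p J m x δ h => by
  have h' : ∀ k, ∃ τ, δ ≤ mag (cpl p J (m + k)) τ (embn p m x k) := by
    intro k
    obtain ⟨τ, hτ⟩ := h k
    rcases le_abs.1 hτ with h1 | h1
    · exact ⟨τ, h1⟩
    · exact ⟨fun c => !τ c, by rwa [mag_flip]⟩
  choose t ht using h'
  have hev : ∀ᶠ N in (hyperfilter ℕ : Filter ℕ), m ≤ N :=
    Nat.hyperfilter_le_atTop (eventually_ge_atTop m)
  obtain ⟨γ, hγ, hγl⟩ := exists_lim p J (fun N => t (N - m))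
  obtain ⟨γ', hγ', hγl'⟩ := exists_lim p J (fun N c => !t (N - m) c)
  refine ⟨γ, γ', hγ, hγ', ?_, ?_⟩
  · have h1 : Tendsto (fun N => ∑ s : Pt b m → Bool, sg (s (.inr x)) *
        D p N (gb p J N (t (N - m))) m s) (hyperfilter ℕ : Filter ℕ)
        (𝓝 (∑ s : Pt b m → Bool, sg (s (.inr x)) * γ m s)) :=
      tendsto_finsetSum _ fun s _ => (hγl m s).const_mul _
    refine ge_of_tendsto h1 (hev.mono fun N hN => ?_)
    obtain ⟨k, rfl⟩ := Nat.exists_eq_add_of_le hN
    rw [D_embn, gb_mag, Nat.add_sub_cancel_left]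
    exact ht k
  · have h1 : Tendsto (fun N => ∑ s : Pt b m → Bool, sg (s (.inr x)) *
        D p N (gb p J N (fun c => !t (N - m) c)) m s) (hyperfilter ℕ : Filter ℕ)
        (𝓝 (∑ s : Pt b m → Bool, sg (s (.inr x)) * γ' m s)) :=
      tendsto_finsetSum _ fun s _ => (hγl' m s).const_mul _
    refine le_of_tendsto h1 (hev.mono fun N hN => ?_)
    obtain ⟨k, rfl⟩ := Nat.exists_eq_add_of_le hN
    rw [D_embn, gb_mag, Nat.add_sub_cancel_left, mag_flip]
    exact neg_le_neg (ht k)

end

end Pool.Agent.N51.EA
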