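import Pool.Agent.N906.KG.Stm
import Pool.Agent.N475.NT_EUPN
import Pool.Agent.N134.RS_PIT
import Pool.Agent.N803.RS_CNT

/-!
# Project KG (helper906), leaf EUPK: the logarithm of the Euler product over the primes of `K`, exponent `r`

The proof is that of `Pool/Agent/N475/NT_EUPN.lean`, for an index set with a norm function which satisfies the prime
ideal theorem and a linear bound for the number of the primes (as in `Pool/Agent/N163/RS_EUP.lean`).
-/

set_option autoImplicit false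

namespace Pool.Agent.N51.KG

open NumberField IsDedekindDomain Finset Filter Topology Pool.Agent.H691R3 Pool.Agent.W223.AK
open Pool.Agent.N163.RS (pow_sub_pos)
open Pool.Agent.N475.NT (GG GG_nonneg GG_anti GG_val largej small_ev choose_eta sub_one_ge)
open Pool.Agent.N906.KG (S_EUPK)

variable {α : Type} (Q : α → ℝ)

theorem core (h2 : ∀ v, 2 ≤ Q v) (hnat : ∀ v, ∃ n : ℕ, Q v = n)
    (hpit : Tendsto (fun n : ℕ => (Set.ncard {v : α | Q v ≤ n} : ℝ) * Real.log n / n) atTop (𝓝 1))
    (C0 : ℝ) (hC0 : 0 < C0) (hcnt : ∀ (Y : ℝ) (s : Finset α), 1 ≤ Y → (∀ v ∈ s, Q v ≤ Y) →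
      (s.card : ℝ) ≤ C0 * Y) (r t N : ℕ) (μ θ ε : ℝ) (hr : 1 ≤ r) (ht : 1 ≤ t) (hμ : 0 < μ)
    (hθ0 : 0 ≤ θ) (hθ : θ ≤ 1 / 2) (hε : 0 < ε) :
    ∃ u₀ : ℝ, 0 < u₀ ∧ u₀ < 1 / 2 ∧ ∀ u : ℝ, 0 < u → u < u₀ → ∀ s : Finset α,
      ∑ v ∈ s, Real.log (1 + μ * (Q v) ^ (θ * u - 1) * (t / ((Q v) ^ u - 1) ^ r +
        ((r : ℝ) - 1) * N * (1 / ((Q v) ^ u - 1) + 1 / ((Q v) ^ u - 1) ^ (r - 1)))) ≤
        (1 + ε) * μ * t / (r * (r * (u * Real.log (1 / u))) ^ r) := by
  classical
  obtain ⟨η, hη0, hη1, hη2, hη3⟩ := choose_eta r ε hε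
  obtain ⟨T0, hT0, hsh⟩ := Pool.Agent.N163.RS.short Q hnat hpit C0 hcnt η hη0 (by linarith)
  have hr0 : (0 : ℝ) < r := by exact_mod_cast hr
  have hr1 : (1 : ℝ) ≤ r := by exact_mod_cast hr
  have ht0 : (0 : ℝ) < t := by exact_mod_cast ht
  have hN0 : (0 : ℝ) ≤ N := Nat.cast_nonneg _
  have hl2 : 0 < Real.log 2 := Real.log_pos (by norm_num)
  have hl21 : Real.log 2 ≤ 1 := by
    have := Real.log_two_lt_d9
    linarith
  set C1 : ℝ := (t + 2 * ((r : ℝ) - 1) * N) / (Real.log 2) ^ r with hC1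
  have hC10 : 0 < C1 := by
    rw [hC1]
    apply div_pos _ (by positivity)
    have : 0 ≤ 2 * ((r : ℝ) - 1) * N := by
      apply mul_nonneg _ hN0
      linarith
    linarith
  set κ : ℝ := (ε / 3) * μ * t / (r * (r : ℝ) ^ r) with hκ
  have hκ0 : 0 < κ := by positivity
  have hsm := small_ev r (μ * C1) (κ / C0) η hr (by positivity) (by positivity) hη0
  have hV : ∀ᶠ u : ℝ in 𝓝[>] 0, u ^ ((r : ℝ) * (1 - η)) < 1 / T0 := by
    have hpos : 0 < (r : ℝ) * (1 - η) := mul_pos hr0 (by linarith)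
    have h1 : Tendsto (fun u : ℝ => u ^ ((r : ℝ) * (1 - η))) (𝓝 0)
        (𝓝 ((0 : ℝ) ^ ((r : ℝ) * (1 - η)))) :=
      (Real.continuous_rpow_const hpos.le).tendsto 0
    rw [Real.zero_rpow hpos.ne'] at h1
    exact (h1.mono_left nhdsWithin_le_nhds).eventually (gt_mem_nhds (by positivity))
  have hul : Tendsto (fun u : ℝ => u * Real.log (1 / u)) (𝓝[>] 0) (𝓝 0) := by
    have h1 := tendsto_log_mul_rpow_nhdsGT_zero (r := 1) one_pos
    have h2 : Tendsto (fun u : ℝ => -(Real.log u * u ^ (1 : ℝ))) (𝓝[>] 0) (𝓝 (-0)) := h1.neg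
    rw [neg_zero] at h2
    refine h2.congr fun u => ?_
    rw [one_div, Real.log_inv, Real.rpow_one]
    ring
  have hy1 : ∀ᶠ u : ℝ in 𝓝[>] 0, (16 * ((r : ℝ) - 1) * N * r * (r * (1 - η))) * (u * Real.log (1 / u)) <
      ε / 3 * t := by
    have h1 := hul.const_mul (16 * ((r : ℝ) - 1) * N * r * (r * (1 - η)))
    rw [mul_zero] at h1
    exact h1.eventually (gt_mem_nhds (by positivity))
  have hy2 : ∀ᶠ u : ℝ in 𝓝[>] 0, (r * (1 - η)) * (u * Real.log (1 / u)) < 1 := by
    have h1 := hul.const_mul (r * (1 - η))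
    rw [mul_zero] at h1
    exact h1.eventually (gt_mem_nhds one_pos)
  have hall := hsm.and (hV.and (hy1.and hy2))
  obtain ⟨u1, hu1, hsub⟩ := mem_nhdsGT_iff_exists_Ioo_subset.1 hall
  refine ⟨min u1 (1 / 4), lt_min hu1 (by norm_num), (min_le_right _ _).trans_lt (by norm_num), ?_⟩
  intro u hu0 hu s
  have huu : u < u1 := hu.trans_le (min_le_left _ _)
  have hu4 : u < 1 / 4 := hu.trans_le (min_le_right _ _)
  obtain ⟨hsmu, hVu, hy1u, hy2u⟩ := hsub ⟨hu0, huu⟩
  have hθu : θ * u ≤ 1 := by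
    have := mul_le_mul hθ hu4.le hu0.le (by norm_num : (0 : ℝ) ≤ 1 / 2)
    linarith
  set V : ℝ := u ^ (-((r : ℝ) * (1 - η))) with hVdef
  have hp : 0 < u ^ ((r : ℝ) * (1 - η)) := Real.rpow_pos_of_pos hu0 _
  have hVT : T0 ≤ V := by
    rw [hVdef, Real.rpow_neg hu0.le]
    rw [lt_div_iff₀ (by linarith)] at hVu
    rw [← one_div, le_div_iff₀ hp]
    linarith
  have hV3 : 3 ≤ V := hT0.trans hVT
  set L : ℝ := Real.log (1 / u) with hL
  have hlV : Real.log V = r * (1 - η) * L := by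
    rw [hVdef, Real.log_rpow hu0, hL, one_div, Real.log_inv]
    ring
  have hlV1 : 1 ≤ Real.log V := by
    rw [Real.le_log_iff_exp_le (by linarith)]
    have := Real.exp_one_lt_d9
    linarith
  have hL0 : 0 < L := Real.log_pos ((one_lt_div hu0).2 (by linarith))
  set y0 : ℝ := u * Real.log V with hy0
  have hy00 : 0 < y0 := by positivity
  have hy0e : y0 = (r * (1 - η)) * (u * L) := by
    rw [hy0, hlV]
    ring
  have hy01 : y0 ≤ 1 := by
    rw [hy0e]
    exact hy2u.le
  have hruL : 0 < (r * (u * L)) ^ r := by positivity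
  have hy0r : y0 ^ r = (1 - η) ^ r * (r * (u * L)) ^ r := by
    rw [hy0e, ← mul_pow]
    congr 1
    ring
  -- the terms
  set f : α → ℝ := fun p => μ * (Q p) ^ (θ * u - 1) * (t / ((Q p) ^ u - 1) ^ r +
      ((r : ℝ) - 1) * N * (1 / ((Q p) ^ u - 1) + 1 / ((Q p) ^ u - 1) ^ (r - 1))) with hf
  have hrm : 0 ≤ (r : ℝ) - 1 := by linarith
  have hq0 : ∀ p : α, 0 < (Q p) ^ u - 1 := by
    intro p
    exact pow_sub_pos hu0 (by
      have := h2 p
      linarith)
  have hf0 : ∀ p ∈ s, 0 ≤ f p := by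
    intro p hps
    have h1 := hq0 p
    have h2' : 0 ≤ ((r : ℝ) - 1) * N * (1 / ((Q p) ^ u - 1) + 1 / ((Q p) ^ u - 1) ^ (r - 1)) := by
      apply mul_nonneg (mul_nonneg hrm hN0)
      positivity
    have h3 : 0 ≤ t / ((Q p) ^ u - 1) ^ r := by positivity
    rw [hf]
    dsimp only
    apply mul_nonneg (mul_nonneg hμ.le (Real.rpow_nonneg (by
      have := h2 p
      linarith) _))
    linarith
  have hfsmall : ∀ p ∈ s, f p ≤ μ * C1 * u ^ (-(r : ℝ)) := by
    intro p hps
    have h1 := hq0 p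
    have hp2 : (2 : ℝ) ≤ (Q p) := h2 p
    set q : ℝ := (Q p) ^ u - 1 with hq
    set w : ℝ := u * Real.log 2 with hw
    have hw0 : 0 < w := by positivity
    have hw1 : w ≤ 1 := by
      have := mul_le_mul hu4.le hl21 hl2.le (by norm_num : (0 : ℝ) ≤ 1 / 4)
      rw [← hw] at this
      linarith
    have hwq : w ≤ q := by
      have h2 := sub_one_ge (u := u) (x := (Q p)) (by linarith)
      have h3 : Real.log 2 ≤ Real.log (Q p) := Real.log_le_log (by norm_num) hp2
      rw [hw, hq]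
      exact (mul_le_mul_of_nonneg_left h3 hu0.le).trans h2
    have hj : ∀ j : ℕ, j ≤ r → 1 / q ^ j ≤ 1 / w ^ r := by
      intro j hj
      calc 1 / q ^ j ≤ 1 / w ^ j :=
            one_div_le_one_div_of_le (by positivity) (pow_le_pow_left₀ hw0.le hwq _)
        _ ≤ 1 / w ^ r :=
            one_div_le_one_div_of_le (by positivity) (pow_le_pow_of_le_one hw0.le hw1 hj)
    have h4 : (Q p) ^ (θ * u - 1) ≤ 1 :=
      Real.rpow_le_one_of_one_le_of_nonpos (by linarith) (by linarith)
    have h5 : t / q ^ r + ((r : ℝ) - 1) * N * (1 / q + 1 / q ^ (r - 1)) ≤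
        (t + 2 * ((r : ℝ) - 1) * N) * (1 / w ^ r) := by
      have h6 := hj r le_rfl
      have h7 := hj 1 hr
      rw [pow_one] at h7
      have h8 := hj (r - 1) (by omega)
      have h9 : (t : ℝ) / q ^ r ≤ t * (1 / w ^ r) := by
        rw [div_eq_mul_one_div]
        exact mul_le_mul_of_nonneg_left h6 ht0.le
      have h10 : ((r : ℝ) - 1) * N * (1 / q + 1 / q ^ (r - 1)) ≤
          ((r : ℝ) - 1) * N * (1 / w ^ r + 1 / w ^ r) :=
        mul_le_mul_of_nonneg_left (add_le_add h7 h8) (mul_nonneg hrm hN0)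
      calc _ ≤ t * (1 / w ^ r) + ((r : ℝ) - 1) * N * (1 / w ^ r + 1 / w ^ r) := add_le_add h9 h10
        _ = _ := by ring
    have h6 : (t + 2 * ((r : ℝ) - 1) * N) * (1 / w ^ r) = C1 * u ^ (-(r : ℝ)) := by
      rw [hC1, hw, mul_pow, Real.rpow_neg hu0.le, Real.rpow_natCast]
      field_simp
    have h7 : 0 ≤ t / q ^ r + ((r : ℝ) - 1) * N * (1 / q + 1 / q ^ (r - 1)) := by
      have h2 : 0 ≤ ((r : ℝ) - 1) * N * (1 / q + 1 / q ^ (r - 1)) := by
        apply mul_nonneg (mul_nonneg hrm hN0)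
        positivity
      have h3 : 0 ≤ t / q ^ r := by positivity
      linarith
    calc f p = μ * (Q p) ^ (θ * u - 1) * (t / q ^ r +
          ((r : ℝ) - 1) * N * (1 / q + 1 / q ^ (r - 1))) := rfl
      _ ≤ μ * 1 * (t / q ^ r + ((r : ℝ) - 1) * N * (1 / q + 1 / q ^ (r - 1))) := by
          apply mul_le_mul_of_nonneg_right _ h7
          exact mul_le_mul_of_nonneg_left h4 hμ.le
      _ ≤ μ * 1 * (C1 * u ^ (-(r : ℝ))) := by
          rw [← h6]
          exact mul_le_mul_of_nonneg_left h5 (by linarith)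
      _ = _ := by ring
  have hgoal : (1 + ε) * μ * t / (r * (r * (u * L)) ^ r) =
      (ε / 3) * μ * t / (r * (r * (u * L)) ^ r) + ((1 + ε / 3) * μ * t / (r * (r * (u * L)) ^ r) +
        (ε / 3) * μ * t / (r * (r * (u * L)) ^ r)) := by ring
  show ∑ p ∈ s, Real.log (1 + f p) ≤ (1 + ε) * μ * t / (r * (r * (u * L)) ^ r)
  rw [hgoal, ← Finset.sum_filter_add_sum_filter_not s (fun p => (Q p) ≤ V)]
  apply add_le_add
  · have e0 : 0 ≤ Real.log (1 + μ * C1 * u ^ (-(r : ℝ))) := Real.log_nonneg (by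
      have : 0 ≤ μ * C1 * u ^ (-(r : ℝ)) := by positivity
      linarith)
    calc ∑ p ∈ s.filter (fun p : α => (Q p) ≤ V), Real.log (1 + f p)
        ≤ ∑ p ∈ s.filter (fun p : α => (Q p) ≤ V), Real.log (1 + μ * C1 * u ^ (-(r : ℝ))) := by
          refine Finset.sum_le_sum fun p hps => ?_
          have h1 := hf0 p (mem_filter.1 hps).1
          have h2 := hfsmall p (mem_filter.1 hps).1
          exact Real.log_le_log (by linarith) (by linarith)
      _ = ((s.filter (fun p : α => (Q p) ≤ V)).card : ℝ) * Real.log (1 + μ * C1 * u ^ (-(r : ℝ))) := by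
          rw [Finset.sum_const, nsmul_eq_mul]
      _ ≤ C0 * V * Real.log (1 + μ * C1 * u ^ (-(r : ℝ))) := by
          apply mul_le_mul_of_nonneg_right _ e0
          exact hcnt V _ (by linarith) (fun p hps => (mem_filter.1 hps).2)
      _ = C0 * (V * Real.log (1 + μ * C1 * u ^ (-(r : ℝ)))) := by ring
      _ ≤ C0 * (κ / C0 / (u * L) ^ r) := mul_le_mul_of_nonneg_left hsmu hC0.le
      _ = κ / (u * L) ^ r := by field_simp
      _ = (ε / 3) * μ * t / (r * (r * (u * L)) ^ r) := by
          rw [hκ, mul_pow (r : ℝ) (u * L) r]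
          field_simp
  · set s' := s.filter (fun p : α => ¬ (Q p) ≤ V) with hs'
    have hs'V : ∀ p ∈ s', V < (Q p) := fun p hps => not_le.1 (mem_filter.1 hps).2
    have hG0 : ∀ j : ℕ, 0 ≤ ∑ p ∈ s', GG j θ u (Q p) := by
      intro j
      exact Finset.sum_nonneg fun p hps => GG_nonneg hu0 (by
        have := hs'V p hps
        linarith)
    have hlog1 : u * Real.log (1 + η) / y0 ≤ η := by
      rw [div_le_iff₀ hy00, hy0]
      have h9 := Real.log_le_sub_one_of_pos (x := 1 + η) (by linarith)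
      have h10 : Real.log (1 + η) ≤ η := by linarith
      have h11 : η * 1 ≤ η * Real.log V := mul_le_mul_of_nonneg_left hlV1 hη0.le
      have h12 : u * Real.log (1 + η) ≤ u * (η * Real.log V) :=
        mul_le_mul_of_nonneg_left (by linarith) hu0.le
      exact h12.trans (le_of_eq (by ring))
    have hlarge : ∀ j : ℕ, 1 ≤ j → (j : ℝ) * ∑ p ∈ s', GG j θ u (Q p) ≤
        (1 + η) ^ 2 * (1 + j * η) / y0 ^ j := by
      intro j hj
      have h1 := largej Q j hj η T0 hη0 hT0 hsh V θ u hVT hu0 hθ hθu s' hs'V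
      rw [← hy0] at h1
      refine h1.trans ?_
      have h2 : (1 : ℝ) + j * (u * Real.log (1 + η)) / y0 ≤ 1 + j * η := by
        have h3 : (j : ℝ) * (u * Real.log (1 + η)) / y0 = j * (u * Real.log (1 + η) / y0) := by ring
        rw [h3]
        have := mul_le_mul_of_nonneg_left hlog1 (Nat.cast_nonneg (α := ℝ) j)
        linarith
      calc (1 + η) ^ 2 * (1 / y0 ^ j) * (1 + j * (u * Real.log (1 + η)) / y0)
          ≤ (1 + η) ^ 2 * (1 / y0 ^ j) * (1 + j * η) := mul_le_mul_of_nonneg_left h2 (by positivity)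
        _ = _ := by ring
    have hmain : μ * t * ∑ p ∈ s', GG r θ u (Q p) ≤ (1 + ε / 3) * μ * t / (r * (r * (u * L)) ^ r) := by
      have h1 := hlarge r hr
      have h2 : (1 + η) ^ 2 * (1 + r * η) / y0 ^ r ≤ (1 + ε / 3) / (r * (u * L)) ^ r := by
        have h1e : 0 < (1 - η) ^ r := by linarith
        calc (1 + η) ^ 2 * (1 + r * η) / y0 ^ r ≤ (1 + ε / 3) * (1 - η) ^ r / y0 ^ r :=
              div_le_div_of_nonneg_right hη2 (by positivity)
          _ = (1 + ε / 3) / (r * (u * L)) ^ r := by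
              rw [hy0r]
              field_simp
      have h3 : ∑ p ∈ s', GG r θ u (Q p) ≤ (1 + ε / 3) / (r * (u * L)) ^ r / r := by
        rw [le_div_iff₀ hr0, mul_comm]
        exact h1.trans h2
      calc μ * t * ∑ p ∈ s', GG r θ u (Q p) ≤ μ * t * ((1 + ε / 3) / (r * (u * L)) ^ r / r) :=
            mul_le_mul_of_nonneg_left h3 (by positivity)
        _ = _ := by
            field_simp
    have hmid : μ * (((r : ℝ) - 1) * N * (∑ p ∈ s', GG 1 θ u (Q p) + ∑ p ∈ s', GG (r - 1) θ u (Q p))) ≤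
        (ε / 3) * μ * t / (r * (r * (u * L)) ^ r) := by
      rcases Nat.lt_or_ge r 2 with hr2 | hr2
      · have : r = 1 := by omega
        subst this
        have h1 : ((1 : ℕ) : ℝ) - 1 = 0 := by norm_num
        rw [h1, zero_mul, zero_mul, mul_zero]
        positivity
      · have hj : ∀ j : ℕ, 1 ≤ j → j ≤ r - 1 → ∑ p ∈ s', GG j θ u (Q p) ≤ 4 / y0 ^ (r - 1) := by
          intro j hj1 hj2
          have hj0 : (1 : ℝ) ≤ j := by exact_mod_cast hj1
          have h1 := hlarge j hj1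
          have h2 : (1 + η) ^ 2 * (1 + j * η) ≤ j * 4 := by
            have h3 : (1 + η) ^ 2 ≤ 2 := by
              have := pow_le_pow_left₀ (by linarith) (show 1 + η ≤ 5 / 4 by linarith) 2
              norm_num at this ⊢
              linarith
            have h4 : 1 + j * η ≤ 2 * j := by
              have := mul_le_mul_of_nonneg_left (show η ≤ 1 by linarith) (zero_le_one.trans hj0)
              linarith
            calc (1 + η) ^ 2 * (1 + j * η) ≤ 2 * (2 * j) := by
                  apply mul_le_mul h3 h4 (by positivity) (by norm_num)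
              _ = _ := by ring
          have h3 : (1 + η) ^ 2 * (1 + j * η) / y0 ^ j ≤ j * (4 / y0 ^ j) := by
            rw [← mul_div_assoc]
            exact div_le_div_of_nonneg_right h2 (by positivity)
          have h4 := le_of_mul_le_mul_left (h1.trans h3) (by linarith)
          refine h4.trans ?_
          exact div_le_div_of_nonneg_left (by norm_num) (by positivity)
            (pow_le_pow_of_le_one hy00.le hy01 hj2)
        have h1 := hj 1 le_rfl (by omega)
        have h2 := hj (r - 1) (by omega) le_rfl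
        have h3 : 1 / y0 ^ (r - 1) = y0 / y0 ^ r := by
          have : y0 ^ r = y0 ^ (r - 1) * y0 := by
            rw [← pow_succ]
            congr 1
            omega
          rw [this]
          field_simp
        have h4 : ∑ p ∈ s', GG 1 θ u (Q p) + ∑ p ∈ s', GG (r - 1) θ u (Q p) ≤ 8 * (y0 / y0 ^ r) := by
          rw [← h3]
          have e : 4 / y0 ^ (r - 1) = 4 * (1 / y0 ^ (r - 1)) := by ring
          rw [e] at h1 h2
          linarith
        have h5 : y0 / y0 ^ r ≤ 2 * y0 / (r * (u * L)) ^ r := by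
          rw [hy0r, div_le_div_iff₀ (by positivity) hruL]
          have h6 : y0 * (r * (u * L)) ^ r ≤ 2 * (1 - η) ^ r * (y0 * (r * (u * L)) ^ r) := by
            have h7 : 0 ≤ y0 * (r * (u * L)) ^ r := by positivity
            have h8 := mul_le_mul_of_nonneg_right (show 1 ≤ 2 * (1 - η) ^ r by linarith) h7
            linarith
          calc y0 * (r * (u * L)) ^ r ≤ 2 * (1 - η) ^ r * (y0 * (r * (u * L)) ^ r) := h6
            _ = _ := by ring
        have h6 : 0 ≤ ((r : ℝ) - 1) * N := mul_nonneg hrm hN0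
        calc μ * (((r : ℝ) - 1) * N * (∑ p ∈ s', GG 1 θ u (Q p) + ∑ p ∈ s', GG (r - 1) θ u (Q p)))
            ≤ μ * (((r : ℝ) - 1) * N * (8 * (2 * y0 / (r * (u * L)) ^ r))) := by
              apply mul_le_mul_of_nonneg_left _ hμ.le
              apply mul_le_mul_of_nonneg_left _ h6
              linarith
          _ = μ * (16 * ((r : ℝ) - 1) * N * r * (r * (1 - η)) * (u * L)) / (r * (r * (u * L)) ^ r) := by
              rw [hy0e]
              field_simp
              ring
          _ ≤ μ * (ε / 3 * t) / (r * (r * (u * L)) ^ r) := by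
              apply div_le_div_of_nonneg_right _ (by positivity)
              exact mul_le_mul_of_nonneg_left hy1u.le hμ.le
          _ = _ := by ring
    calc ∑ p ∈ s', Real.log (1 + f p) ≤ ∑ p ∈ s', f p := by
          refine Finset.sum_le_sum fun p hps => ?_
          have h1 := hf0 p (mem_filter.1 hps).1
          have h2 := Real.log_le_sub_one_of_pos (x := 1 + f p) (by linarith)
          linarith
      _ = μ * t * ∑ p ∈ s', GG r θ u (Q p) + μ * (((r : ℝ) - 1) * N *
            (∑ p ∈ s', GG 1 θ u (Q p) + ∑ p ∈ s', GG (r - 1) θ u (Q p))) := by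
          rw [← Finset.sum_add_distrib, Finset.mul_sum, Finset.mul_sum, Finset.mul_sum,
            ← Finset.sum_add_distrib]
          refine Finset.sum_congr rfl fun p _ => ?_
          rw [hf]
          unfold GG
          ring
      _ ≤ _ := add_le_add hmain hmid



theorem eupk (K : Type) [Field K] [NumberField K] : S_EUPK K := by
  obtain ⟨C, hC, hc1, -⟩ := Pool.Agent.N803.RS.cnt K
  have hpit := Pool.Agent.N134.RS.pit K
  intro r t N μ θ ε hr ht hμ hθ0 hθ hε
  have h2 : ∀ v : Pr K, 2 ≤ Nv v := fun v => two_le_Nv v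
  have hnat : ∀ v : Pr K, ∃ n : ℕ, Nv v = n := fun v => ⟨Ideal.absNorm v.asIdeal, rfl⟩
  exact core (fun v : Pr K => Nv v) h2 hnat hpit C hC hc1 r t N μ θ ε hr ht hμ hθ0 hθ hε

end Pool.Agent.N51.KG
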